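import Pool.Agent.helper93.TV.Spec3

/-! TV, row CL: the objects generated by a set closed under duality form a based subring. -/

namespace Pool.Agent.helper93.TV

open BigOperators Finset

namespace CLaux

variable {I V : Type} [Fintype I] [DecidableEq I] [Fintype V] [DecidableEq V]

theorem mlt_ne {D : FD I V} {a b c : I} :
    D.mlt a b c ≠ 0 ↔ ∃ v, D.s1 v = a ∧ D.s2 v = b ∧ D.t v = c := by
  unfold FD.mlt
  rw [Finset.card_ne_zero, Finset.filter_nonempty_iff]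
  simp

theorem gen_mem (D : FD I V) (X : Set I) (x : I) (hx : x ∈ X) : D.Gen X x := by
  have h := FD.Gen.mul (D := D) (S := X) (D.lam x)
    (by rw [D.s1_lam]; exact FD.Gen.unit) (by rw [D.s2_lam]; exact hx)
  rwa [D.t_lam] at h

theorem gen_prod (D : FD I V) (X : Set I) (hR : D.Rg) (b : I) (hb : D.Gen X b) :
    ∀ v, D.s2 v = b → D.Gen X (D.s1 v) → D.Gen X (D.t v) := by
  induction hb with
  | unit =>
    intro v hv h1
    have h2 := D.rho_unique v hv
    have h3 : D.t v = D.s1 v := by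
      rw [h2, D.t_rho, D.s1_rho]
    rwa [h3]
  | mul w hw hX ih =>
    intro v hv h1
    have e1 : ∑ f, D.mlt (D.s1 w) (D.s2 w) f * D.mlt (D.s1 v) f (D.t v) ≠ 0 := by
      intro h0
      have h4 := (Finset.sum_eq_zero_iff.1 h0) (D.t w) (Finset.mem_univ _)
      rcases Nat.mul_eq_zero.1 h4 with h5 | h5
      · exact mlt_ne.2 ⟨w, rfl, rfl, rfl⟩ h5
      · exact mlt_ne.2 ⟨v, rfl, hv, rfl⟩ h5
    rw [← hR.assoc] at e1
    obtain ⟨e, _, he⟩ := Finset.exists_ne_zero_of_sum_ne_zero e1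
    obtain ⟨u1, a1, a2, a3⟩ := mlt_ne.1 (left_ne_zero_of_mul he)
    obtain ⟨u2, b1, b2, b3⟩ := mlt_ne.1 (right_ne_zero_of_mul he)
    have g1 : D.Gen X (D.t u1) := ih u1 a2 (by rw [a1]; exact h1)
    have g2 : D.Gen X (D.t u2) := FD.Gen.mul u2 (by rw [b1, ← a3]; exact g1)
      (by rw [b2]; exact hX)
    rwa [b3] at g2

theorem du_o (D : FD I V) : D.du D.o = D.o := by
  have h1 := D.lam_unique (D.eta D.o) (D.s1_eta D.o)
  have h2 : D.t (D.eta D.o) = D.s2 (D.eta D.o) := by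
    rw [h1, D.t_lam, D.s2_lam]
  rw [D.t_eta, D.s2_eta] at h2
  exact h2.symm

theorem mlt_du (D : FD I V) (hR : D.Rg) (a b c : I) :
    D.mlt a b c = D.mlt (D.du b) (D.du a) (D.du c) := by
  rw [hR.frl a b c, hR.frr (D.du a) c b, hR.frl b (D.du c) (D.du a)]

theorem gen_du (D : FD I V) (X : Set I) (hR : D.Rg) (hX : ∀ x ∈ X, D.du x ∈ X) (b : I)
    (hb : D.Gen X b) : D.Gen X (D.du b) := by
  induction hb with
  | unit => rw [du_o]; exact FD.Gen.unit
  | mul w hw hwX ih =>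
    have h1 : D.mlt (D.du (D.s2 w)) (D.du (D.s1 w)) (D.du (D.t w)) ≠ 0 := by
      rw [← mlt_du D hR]
      exact mlt_ne.2 ⟨w, rfl, rfl, rfl⟩
    obtain ⟨v, a1, a2, a3⟩ := mlt_ne.1 h1
    have h2 := gen_prod D X hR _ ih v a2 (by rw [a1]; exact gen_mem D X _ (hX _ hwX))
    rwa [a3] at h2

end CLaux

open CLaux in
theorem CL : CL_stmt := by
  intro I V _ _ _ _ D X hR hX
  exact ⟨fun v h1 h2 => gen_prod D X hR _ h2 v rfl h1, fun b hb => gen_du D X hR hX b hb,
    fun x hx => gen_mem D X x hx⟩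

end Pool.Agent.helper93.TV
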