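import Pool.Agent.helper93.TV.Spec2

/-! TV, row SP: the pentagon equation for the reconstructed F-symbols. -/

namespace Pool.Agent.helper93.TV

open BigOperators Finset Matrix

namespace SPaux

variable {I V : Type} [Fintype I] [DecidableEq I] [Fintype V] [DecidableEq V]

theorem form_cp (D : FD I V) (X : Finset I) (c : V → V → V → V → ℂ) (m : ℕ) (bp : I → List V)
    (J : V → List V → ℂ) (l e e' l' : V) (h : D.form X c m bp J l e e' l' ≠ 0) :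
    D.cp l e e' l' := by
  by_contra hc
  exact h (if_neg hc)

/-- The outer types of the right comb agree with those of the left comb. -/
def Mt (D : FD I V) (α γ ε β δ ζ : V) : Prop :=
  D.s1 β = D.s2 γ ∧ D.s2 β = D.s2 ε ∧ D.s1 δ = D.s2 α ∧ D.s1 ζ = D.s1 α ∧ D.t β = D.s2 δ ∧
    D.t δ = D.s2 ζ

theorem coef (D : FD I V) (m : ℕ) (R : V → V → V → List V → ℂ)
    (hSI : ∀ β δ ζ β' δ' ζ', D.s1 β = D.s1 β' → D.s2 β = D.s2 β' → D.s1 δ = D.s1 δ' →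
      D.s1 ζ = D.s1 ζ' → D.t β = D.s2 δ → D.t β' = D.s2 δ' → D.t δ = D.s2 ζ →
      D.t δ' = D.s2 ζ' →
      ∑ w ∈ lists V (3 * m), R β δ ζ w * star (R β' δ' ζ' w) =
        if β = β' ∧ δ = δ' ∧ ζ = ζ' then 1 else 0)
    (α γ ε : V) (C : V → V → V → ℂ) (hC : ∀ β δ ζ, C β δ ζ ≠ 0 → Mt D α γ ε β δ ζ)
    (G : List V → ℂ)
    (hG : ∀ w ∈ lists V (3 * m), G w = ∑ β, ∑ δ, ∑ ζ, C β δ ζ * R β δ ζ w)
    (β₀ δ₀ ζ₀ : V) (h0 : Mt D α γ ε β₀ δ₀ ζ₀) :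
    ∑ w ∈ lists V (3 * m), G w * star (R β₀ δ₀ ζ₀ w) = C β₀ δ₀ ζ₀ := by
  have h1 : ∑ w ∈ lists V (3 * m), G w * star (R β₀ δ₀ ζ₀ w) =
      ∑ β, ∑ δ, ∑ ζ, C β δ ζ *
        ∑ w ∈ lists V (3 * m), R β δ ζ w * star (R β₀ δ₀ ζ₀ w) := by
    rw [Finset.sum_congr rfl fun w hw => by rw [hG w hw]]
    simp only [Finset.sum_mul, Finset.mul_sum]
    rw [Finset.sum_comm]
    refine Finset.sum_congr rfl fun β _ => ?_
    rw [Finset.sum_comm]
    refine Finset.sum_congr rfl fun δ _ => ?_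
    rw [Finset.sum_comm]
    refine Finset.sum_congr rfl fun ζ _ => Finset.sum_congr rfl fun w _ => ?_
    ring
  have h2 : ∀ β δ ζ, C β δ ζ *
        ∑ w ∈ lists V (3 * m), R β δ ζ w * star (R β₀ δ₀ ζ₀ w) =
      if β = β₀ ∧ δ = δ₀ ∧ ζ = ζ₀ then C β₀ δ₀ ζ₀ else 0 := by
    intro β δ ζ
    by_cases hz : C β δ ζ = 0
    · rw [hz, zero_mul]
      by_cases hh : β = β₀ ∧ δ = δ₀ ∧ ζ = ζ₀
      · rw [if_pos hh]
        obtain ⟨rfl, rfl, rfl⟩ := hh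
        exact hz.symm
      · rw [if_neg hh]
    · obtain ⟨a1, a2, a3, a4, a5, a6⟩ := hC β δ ζ hz
      obtain ⟨b1, b2, b3, b4, b5, b6⟩ := h0
      rw [hSI β δ ζ β₀ δ₀ ζ₀ (a1.trans b1.symm) (a2.trans b2.symm) (a3.trans b3.symm)
        (a4.trans b4.symm) a5 b5 a6 b6]
      by_cases hh : β = β₀ ∧ δ = δ₀ ∧ ζ = ζ₀
      · rw [if_pos hh, if_pos hh]
        obtain ⟨rfl, rfl, rfl⟩ := hh
        rw [mul_one]
      · rw [if_neg hh, if_neg hh, mul_zero]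
  rw [h1, Finset.sum_congr rfl fun β _ => Finset.sum_congr rfl fun δ _ =>
    Finset.sum_congr rfl fun ζ _ => h2 β δ ζ]
  rw [Finset.sum_eq_single β₀, Finset.sum_eq_single δ₀, Finset.sum_eq_single ζ₀]
  · simp
  · intro ζ _ hζ
    simp [hζ]
  · intro h; exact absurd (Finset.mem_univ _) h
  · intro δ _ hδ
    simp [hδ]
  · intro h; exact absurd (Finset.mem_univ _) h
  · intro β _ hβ
    simp [hβ]
  · intro h; exact absurd (Finset.mem_univ _) h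

end SPaux

open SPaux in
theorem SP : SP_stmt := by
  intro hSR hSL hSC hSE hSA hSB hSI I V _ _ _ _ D X c m bp J hctx hcalc hJ
  have hSE' := hSE I V D X c m bp J hctx hcalc hJ
  have hSA' := hSA I V D X c m bp J hctx hcalc hJ
  have hSB' := hSB I V D X c m bp J hctx hcalc hJ
  have hSI' := hSI I V D X c m bp J hctx hcalc hJ
  have hcp := form_cp D X c m bp J
  generalize D.form X c m bp J = F at *
  intro α γ ε β δ ζ
  -- supports of the two sides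
  have hA : ∀ β δ ζ, (∑ ν, F γ ε β ν * F α ν δ ζ) ≠ 0 →
      D.t α = D.s1 γ ∧ D.t γ = D.s1 ε ∧ Mt D α γ ε β δ ζ := by
    intro β δ ζ h
    obtain ⟨ν, _, hν⟩ := Finset.exists_ne_zero_of_sum_ne_zero h
    obtain ⟨a1, a2, a3, a4, a5, a6⟩ := hcp _ _ _ _ (left_ne_zero_of_mul hν)
    obtain ⟨b1, b2, b3, b4, b5, b6⟩ := hcp _ _ _ _ (right_ne_zero_of_mul hν)
    exact ⟨b1.trans a3.symm, a1, a4.symm, a5.symm, b4.symm, b3.symm, a2.trans b5, b2⟩
  have hB : ∀ β δ ζ, (∑ μ, ∑ ρ, ∑ σ, F α γ μ ρ * F ρ ε σ ζ * F μ σ β δ) ≠ 0 →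
      D.t α = D.s1 γ ∧ D.t γ = D.s1 ε ∧ Mt D α γ ε β δ ζ := by
    intro β δ ζ h
    obtain ⟨μ, _, hμ⟩ := Finset.exists_ne_zero_of_sum_ne_zero h
    obtain ⟨ρ, _, hρ⟩ := Finset.exists_ne_zero_of_sum_ne_zero hμ
    obtain ⟨σ, _, hσ⟩ := Finset.exists_ne_zero_of_sum_ne_zero hρ
    obtain ⟨a1, a2, a3, a4, a5, a6⟩ := hcp _ _ _ _ (left_ne_zero_of_mul (left_ne_zero_of_mul hσ))
    obtain ⟨b1, b2, b3, b4, b5, b6⟩ := hcp _ _ _ _ (right_ne_zero_of_mul (left_ne_zero_of_mul hσ))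
    obtain ⟨c1, c2, c3, c4, c5, c6⟩ := hcp _ _ _ _ (right_ne_zero_of_mul hσ)
    exact ⟨a1, a6.trans b1, (a5.trans c4).symm, (b5.trans c5).symm, (a4.trans c3).symm,
      (a3.trans b3).symm, c2, c6.symm.trans b2⟩
  by_cases hM : D.t α = D.s1 γ ∧ D.t γ = D.s1 ε ∧ Mt D α γ ε β δ ζ
  swap
  · rw [not_not.1 (mt (hA β δ ζ) hM), not_not.1 (mt (hB β δ ζ) hM)]
  obtain ⟨h1, h2, h3⟩ := hM
  have hGA : ∀ w ∈ lists V (3 * m), J α (w.take m) * Lv m J γ ε (w.drop m) =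
      ∑ β, ∑ δ, ∑ ζ, (∑ ν, F γ ε β ν * F α ν δ ζ) * D.RR X c m bp J β δ ζ w := by
    intro w hw
    have hw' : w.drop m ∈ lists V (2 * m) := by
      rw [mem_lists] at hw ⊢
      rw [List.length_drop, hw]; omega
    rw [hSE' γ ε (w.drop m) h2 hw', Finset.mul_sum]
    refine Finset.sum_congr rfl fun β' _ => ?_
    rw [Finset.mul_sum]
    have e1 : ∀ ν, J α (w.take m) * (F γ ε β' ν * D.Rv X c m bp J β' ν (w.drop m)) =
        ∑ δ, ∑ ζ, F γ ε β' ν * F α ν δ ζ * D.RR X c m bp J β' δ ζ w := by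
      intro ν
      by_cases hz : F γ ε β' ν = 0
      · simp [hz]
      · obtain ⟨a1, a2, a3, a4, a5, a6⟩ := hcp _ _ _ _ hz
        rw [mul_left_comm, hSA' α β' ν w (h1.trans a3) a2 hw, Finset.mul_sum]
        refine Finset.sum_congr rfl fun δ' _ => ?_
        rw [Finset.mul_sum]
        exact Finset.sum_congr rfl fun ζ' _ => (mul_assoc _ _ _).symm
    rw [Finset.sum_congr rfl fun ν _ => e1 ν, Finset.sum_comm]
    refine Finset.sum_congr rfl fun δ' _ => ?_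
    rw [Finset.sum_comm]
    refine Finset.sum_congr rfl fun ζ' _ => ?_
    rw [Finset.sum_mul]
  have hGB : ∀ w ∈ lists V (3 * m), J α (w.take m) * Lv m J γ ε (w.drop m) =
      ∑ β, ∑ δ, ∑ ζ, (∑ μ, ∑ ρ, ∑ σ, F α γ μ ρ * F ρ ε σ ζ * F μ σ β δ) *
        D.RR X c m bp J β δ ζ w := by
    intro w hw
    have hw' : w.take (2 * m) ∈ lists V (2 * m) := by
      rw [mem_lists] at hw ⊢
      rw [List.length_take, hw]; omega
    have e0 : J α (w.take m) * Lv m J γ ε (w.drop m) =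
        Lv m J α γ (w.take (2 * m)) * J ε (w.drop (2 * m)) := by
      unfold Lv
      rw [List.take_take, List.drop_take, List.drop_drop, show min m (2 * m) = m by omega,
        show 2 * m - m = m by omega, show m + m = 2 * m by omega]
      ring
    rw [e0, hSE' α γ (w.take (2 * m)) h1 hw', Finset.sum_mul]
    have e1 : ∀ μ, (∑ ρ, F α γ μ ρ * D.Rv X c m bp J μ ρ (w.take (2 * m))) *
        J ε (w.drop (2 * m)) = ∑ ρ, ∑ σ, ∑ ζ, ∑ β, ∑ δ,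
          F α γ μ ρ * F ρ ε σ ζ * F μ σ β δ * D.RR X c m bp J β δ ζ w := by
      intro μ
      rw [Finset.sum_mul]
      refine Finset.sum_congr rfl fun ρ _ => ?_
      by_cases hz : F α γ μ ρ = 0
      · simp [hz]
      · obtain ⟨a1, a2, a3, a4, a5, a6⟩ := hcp _ _ _ _ hz
        rw [mul_assoc, hSB' μ ρ ε w a2 (a6.symm.trans h2) hw]
        simp only [Finset.mul_sum]
        refine Finset.sum_congr rfl fun σ _ => Finset.sum_congr rfl fun ζ _ =>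
          Finset.sum_congr rfl fun β _ => Finset.sum_congr rfl fun δ _ => ?_
        ring
    rw [Finset.sum_congr rfl fun μ _ => e1 μ]
    simp only [Finset.sum_mul]
    -- reorder the sums
    have e2 : ∀ f : V → V → V → V → V → V → ℂ,
        ∑ μ, ∑ ρ, ∑ σ, ∑ ζ, ∑ β, ∑ δ, f μ ρ σ ζ β δ =
          ∑ β, ∑ δ, ∑ ζ, ∑ μ, ∑ ρ, ∑ σ, f μ ρ σ ζ β δ := by
      intro f
      have s1 : ∑ μ, ∑ ρ, ∑ σ, ∑ ζ, ∑ β, ∑ δ, f μ ρ σ ζ β δ =
          ∑ x : V × V × V, ∑ y : V × V × V, f x.1 x.2.1 x.2.2 y.2.2 y.1 y.2.1 := by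
        simp only [Fintype.sum_prod_type]
        refine Finset.sum_congr rfl fun μ _ => Finset.sum_congr rfl fun ρ _ =>
          Finset.sum_congr rfl fun σ _ => ?_
        rw [Finset.sum_comm]
        refine Finset.sum_congr rfl fun β _ => ?_
        rw [Finset.sum_comm]
      have s2 : ∑ β, ∑ δ, ∑ ζ, ∑ μ, ∑ ρ, ∑ σ, f μ ρ σ ζ β δ =
          ∑ y : V × V × V, ∑ x : V × V × V, f x.1 x.2.1 x.2.2 y.2.2 y.1 y.2.1 := by
        simp only [Fintype.sum_prod_type]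
      rw [s1, s2, Finset.sum_comm]
    exact e2 fun μ ρ σ ζ β δ => F α γ μ ρ * F ρ ε σ ζ * F μ σ β δ * D.RR X c m bp J β δ ζ w
  have kA := coef D m (D.RR X c m bp J) hSI' α γ ε (fun β δ ζ => ∑ ν, F γ ε β ν * F α ν δ ζ)
    (fun β δ ζ h => (hA β δ ζ h).2.2) _ hGA β δ ζ h3
  have kB := coef D m (D.RR X c m bp J) hSI' α γ ε
    (fun β δ ζ => ∑ μ, ∑ ρ, ∑ σ, F α γ μ ρ * F ρ ε σ ζ * F μ σ β δ)
    (fun β δ ζ h => (hB β δ ζ h).2.2) _ hGB β δ ζ h3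
  exact kA.symm.trans kB

end Pool.Agent.helper93.TV
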